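import Mathlib
import Pool.Agent.MP_4e8562_co.H97.Upper

/-! Averaging over product strategies, random lists and the product bound for `Psi`. -/

namespace Pool.Agent.MP_4e8562_co.H66b

open Finset Pool.Agent.MP_4e8562_co.H97

open scoped Classical in
/-- the words of `S` that differ from `c` everywhere on `V` -/
noncomputable def avd {α β : Type} {r : ℕ} (W : β → α → Fin r) (S : Finset β) (V : Finset α)
    (c : α → Fin r) : Finset β := {y ∈ S | ∀ x ∈ V, W y x ≠ c x}

theorem mem_avd {α β : Type} {r : ℕ} {W : β → α → Fin r} {S : Finset β} {V : Finset α}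
    {c : α → Fin r} {y : β} : y ∈ avd W S V c ↔ y ∈ S ∧ ∀ x ∈ V, W y x ≠ c x := by
  simp [avd]

theorem avg {α β : Type} [Fintype α] [DecidableEq α] {r : ℕ} (W : β → α → Fin r) (S : Finset β)
    (V : Finset α) (B : α → Finset (Fin r)) (hB : ∀ x, (B x).Nonempty) :
    ∃ c : α → Fin r, (∀ x, c x ∈ B x) ∧ (#(avd W S V c) : ℝ) ≤
      ∑ y ∈ S, ∏ x ∈ V, (1 - if W y x ∈ B x then 1 / (#(B x) : ℝ) else 0) := by
  classical
  obtain ⟨c, hc, h⟩ := exists_le_of_sum_le (s := Fintype.piFinset B)
    (f := fun c : α → Fin r => (#(avd W S V c) : ℝ))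
    (g := fun _ => ∑ y ∈ S, ∏ x ∈ V, (1 - if W y x ∈ B x then 1 / (#(B x) : ℝ) else 0))
    (Fintype.piFinset_nonempty.2 hB) (le_of_eq (by
      have e0 : ∀ c, avd W S V c = {y ∈ S | ∀ x ∈ V, W y x ≠ c x} := fun c => by
        ext y
        simp [mem_avd]
      simp only [e0, card_filter, Nat.cast_sum]
      rw [sum_comm, sum_const, nsmul_eq_mul, mul_sum]
      refine sum_congr rfl fun y _ => ?_
      rw [← Nat.cast_sum, ← card_filter]
      have e : {c ∈ Fintype.piFinset B | ∀ x ∈ V, W y x ≠ c x} =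
          Fintype.piFinset fun x => if x ∈ V then (B x).erase (W y x) else B x := by
        ext c
        simp only [mem_filter, Fintype.mem_piFinset]
        constructor
        · rintro ⟨h1, h2⟩ x
          split_ifs with hx
          · exact mem_erase.2 ⟨(h2 x hx).symm, h1 x⟩
          · exact h1 x
        · intro h
          refine ⟨fun x => ?_, fun x hx => ?_⟩
          · have := h x
            split_ifs at this
            · exact mem_of_mem_erase this
            · exact this
          · have := h x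
            rw [if_pos hx] at this
            exact (ne_of_mem_erase this).symm
      rw [e, Fintype.card_piFinset, Fintype.card_piFinset, Nat.cast_prod, Nat.cast_prod,
        ← Fintype.prod_ite_mem V, ← prod_mul_distrib]
      refine prod_congr rfl fun x _ => ?_
      have h0 : (0 : ℝ) < #(B x) := by exact_mod_cast (hB x).card_pos
      split_ifs with h1 h2
      · rw [card_erase_of_mem h2, Nat.cast_sub (hB x).card_pos]
        field_simp
        simp
      · rw [erase_eq_of_notMem h2]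
        simp
      · simp))
  exact ⟨c, Fintype.mem_piFinset.1 hc, h⟩

theorem greedy {α β : Type} [Fintype α] [DecidableEq α] {r : ℕ} (hr : 0 < r) (W : β → α → Fin r)
    (S : Finset β) (V : Finset α) :
    ∃ c : α → Fin r, (#(avd W S V c) : ℝ) ≤ #S * (1 - 1 / (r : ℝ)) ^ #V := by
  have : Nonempty (Fin r) := ⟨⟨0, hr⟩⟩
  obtain ⟨c, -, h⟩ := avg W S V (fun _ => univ) fun _ => univ_nonempty
  exact ⟨c, by simpa using h⟩

theorem chernoff {ι : Type} [Fintype ι] [DecidableEq ι] {r : ℕ} (hr : 2 ≤ r) (x : ℕ) :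
    ∃ W : Fin x → ι → Fin r, ∀ c : ι → Fin r,
      x * (1 - 1 / (r : ℝ)) ^ Fintype.card ι -
        √(2 * (x * (1 - 1 / (r : ℝ)) ^ Fintype.card ι) * (Fintype.card ι * Real.log r)) ≤
        #{b | ∀ a, W b a ≠ c a} := by
  classical
  have : Nonempty (Fin r) := ⟨⟨0, by omega⟩⟩
  have hr2 : (2 : ℝ) ≤ r := by exact_mod_cast hr
  set p : ℝ := (1 - 1 / (r : ℝ)) ^ Fintype.card ι with hp
  set s : ℝ := Fintype.card ι * Real.log r with hs
  have hp0 : 0 < p := pow_pos (by rw [sub_pos, div_lt_one] <;> linarith) _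
  rcases Nat.eq_zero_or_pos x with rfl | hx
  · exact ⟨fun _ _ => Classical.arbitrary _, fun c => by simp⟩
  rcases isEmpty_or_nonempty ι with _ | _
  · exact ⟨fun _ _ => Classical.arbitrary _, fun c => by simp [hp, hs]⟩
  have hs0 : 0 < s := mul_pos (by exact_mod_cast Fintype.card_pos) (Real.log_pos (by linarith))
  set μ : ℝ := x * p with hμ
  have hμ0 : 0 < μ := mul_pos (by exact_mod_cast hx) hp0
  set q := √(2 * μ * s) with hq
  have hq0 : 0 < q := Real.sqrt_pos.2 (by positivity)
  have hq2 : q ^ 2 = 2 * μ * s := Real.sq_sqrt (by positivity)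
  set lam := q / μ with hlam
  have hl0 : 0 < lam := by positivity
  have hN : (Fintype.card (ι → Fin r) : ℝ) = Real.exp s := by
    rw [hs, Real.exp_nat_mul, Real.exp_log (by linarith)]
    simp
  have hE : Real.exp (-lam) ≤ 1 - lam + lam ^ 2 / 2 := by
    have h1 := Real.quadratic_le_exp_of_nonneg hl0.le
    rw [Real.exp_neg, inv_le_comm₀ (Real.exp_pos _) (by nlinarith [sq_nonneg (lam - 1)])]
    refine le_trans ?_ h1
    rw [inv_le_iff_one_le_mul₀ (by nlinarith [sq_nonneg (lam - 1)])]
    nlinarith [pow_nonneg hl0.le 4]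
  let f : (ι → Fin r) → (ι → Fin r) → ℝ := fun c w =>
    if ∀ a, w a ≠ c a then Real.exp (-lam) else 1
  have hf : ∀ c, ∑ w, f c w ≤ Real.exp s * Real.exp (-(p * (lam - lam ^ 2 / 2))) := fun c => by
    have h1 : (#{w : ι → Fin r | ∀ a, w a ≠ c a} : ℝ) = Real.exp s * p := by
      have e : ({w : ι → Fin r | ∀ a, w a ≠ c a} : Finset _) =
          Fintype.piFinset fun a => univ.erase (c a) := by
        ext w
        simp
      rw [e, Fintype.card_piFinset, ← hN, hp]
      simp only [mem_univ, card_erase_of_mem, card_univ, Fintype.card_fin, prod_const,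
        Fintype.card_fun, Nat.cast_pow]
      rw [← mul_pow, Nat.cast_sub (by omega)]
      congr 1
      field_simp
      simp
    have h2 : ∑ w, f c w = Real.exp s * (1 - p * (1 - Real.exp (-lam))) := by
      have e : ∀ w, f c w = 1 - (if ∀ a, w a ≠ c a then 1 else 0) * (1 - Real.exp (-lam)) :=
        fun w => by simp only [f]; split_ifs <;> ring
      simp only [e]
      rw [sum_sub_distrib, ← sum_mul, sum_boole, h1, sum_const, card_univ, nsmul_eq_mul, hN]
      ring
    rw [h2]
    refine mul_le_mul_of_nonneg_left (le_trans ?_ (Real.add_one_le_exp _)) (Real.exp_pos _).le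
    nlinarith
  have hf0 : ∀ c w, 0 ≤ f c w := fun c w => by simp only [f]; split_ifs <;> positivity
  obtain ⟨W, -, hW⟩ := exists_le_of_sum_le (s := (univ : Finset (Fin x → ι → Fin r)))
    (f := fun W => ∑ c, ∏ b, f c (W b))
    (g := fun _ => Real.exp s * Real.exp (-(μ * (lam - lam ^ 2 / 2)))) univ_nonempty (by
      rw [sum_comm]
      simp only [← Fintype.sum_pow]
      refine (sum_le_sum fun c _ => pow_le_pow_left₀ (sum_nonneg fun w _ => hf0 c w) (hf c) x).trans
        (le_of_eq ?_)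
      rw [sum_const, sum_const, card_univ, card_univ, nsmul_eq_mul, nsmul_eq_mul,
        Fintype.card_fun (α := Fin x), Nat.cast_pow, hN, Fintype.card_fin, mul_pow,
        ← Real.exp_nat_mul (-(p * _)), hμ]
      ring_nf)
  refine ⟨W, fun c => ?_⟩
  have h1 := (single_le_sum (f := fun c => ∏ b, f c (W b))
    (fun c _ => prod_nonneg fun b _ => hf0 c _) (mem_univ c)).trans hW
  simp only [f] at h1
  rw [prod_ite, prod_const_one, mul_one, prod_const, ← Real.exp_nat_mul, ← Real.exp_add,
    Real.exp_le_exp] at h1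
  have h2 : lam * (μ - q) ≤ lam * #{b | ∀ a, W b a ≠ c a} := by
    have e1 : lam * μ = q := by rw [hlam]; field_simp
    have e2 : lam * q = 2 * s := by rw [hlam]; field_simp; linarith
    have e3 : μ * lam ^ 2 = 2 * s := by rw [← e2, ← e1]; ring
    nlinarith
  exact le_of_mul_le_mul_left h2 hl0

theorem Psi_mono {r n x y : ℕ} (hr : 0 < r) (h : x ≤ y) : Psi r n x ≤ Psi r n y := by
  obtain ⟨W, hW⟩ := Psi_spec hr n x
  refine le_Psi hr (fun b => if hb : b.1 < x then W ⟨b, hb⟩ else fun _ => ⟨0, hr⟩) fun c => ?_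
  refine (hW c).trans (card_le_card_of_injOn (Fin.castLE h) (fun b hb => ?_)
    (Fin.castLE_injective h).injOn)
  simpa using hb

/-- a list on `Z` combined with a cover of the other coordinates -/
theorem exists_le_Psi_prod {r n m T : ℕ} (hr : 0 < r) {β : Type} (W : β → Fin n → Fin r)
    (S : Finset β) (Z : Finset (Fin n)) (cov : Fin T → Fin n → Fin r)
    (hcov : ∀ c : Fin n → Fin r, ∃ t, ∀ x, x ∉ Z → cov t x ≠ c x) (hT : #S * T ≤ m) :
    ∃ c : Fin n → Fin r, #(avd W S Z c) ≤ Psi r n m := by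
  classical
  obtain ⟨c, hc⟩ := exists_le_Psi hr (S ×ˢ (univ : Finset (Fin T))) rfl
    fun e x => if x ∈ Z then W e.1 x else cov e.2 x
  obtain ⟨t, ht⟩ := hcov c
  refine ⟨c, le_trans ?_ (hc.trans (Psi_mono hr (by simpa using hT)))⟩
  refine card_le_card_of_injOn (fun y => (y, t)) (fun y hy => ?_) fun _ _ _ _ h =>
    (Prod.ext_iff.1 h).1
  obtain ⟨h1, h2⟩ := mem_avd.1 (mem_coe.1 hy)
  refine mem_coe.2 (mem_filter.2 ⟨by simpa using h1, fun x => ?_⟩)
  split_ifs with hx
  exacts [h2 x hx, ht x hx]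

theorem exists_cover {r n T : ℕ} (hr : 2 ≤ r) (V : Finset (Fin n))
    (hT : 2 * (#V * Real.log r) < T * (1 - 1 / (r : ℝ)) ^ #V) :
    ∃ cov : Fin T → Fin n → Fin r, ∀ c : Fin n → Fin r, ∃ t, ∀ x ∈ V, cov t x ≠ c x := by
  classical
  obtain ⟨W, hW⟩ := chernoff (ι := V) hr T
  refine ⟨fun t x => if hx : x ∈ V then W t ⟨x, hx⟩ else ⟨0, by omega⟩, fun c => ?_⟩
  have h1 := hW fun a => c a
  rw [Fintype.card_coe] at h1
  set μ : ℝ := T * (1 - 1 / (r : ℝ)) ^ #V
  have h0 : 0 ≤ #V * Real.log r := mul_nonneg (Nat.cast_nonneg _) (Real.log_natCast_nonneg r)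
  have h2 : √(2 * μ * (#V * Real.log r)) < μ := by
    rw [Real.sqrt_lt' (by linarith)]
    nlinarith
  have h3 : (0 : ℝ) < #{b | ∀ a : V, W b a ≠ c a} := by linarith
  obtain ⟨t, ht⟩ := card_pos.1 (Nat.cast_pos.1 h3)
  exact ⟨t, fun x hx => by simpa [hx] using (mem_filter.1 ht).2 ⟨x, hx⟩⟩

end Pool.Agent.MP_4e8562_co.H66b
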