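import Mathlib

namespace Pool.Agent.MP_4e8562_co.H66b

open Finset

/-- The largest `k` for which some list of `m` words of length `n` over `r` symbols has, for every
word `c`, (number of symbols used by `c`) + (number of members that differ from `c` in every
coordinate) at least `k`. -/
noncomputable def Phi (r n m : ℕ) : ℕ :=
  sSup {k | ∃ W : Fin m → Fin n → Fin r, ∀ c : Fin n → Fin r,
    k ≤ #(univ.image c) + #{b | ∀ a, W b a ≠ c a}}

end Pool.Agent.MP_4e8562_co.H66b
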