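import Mathlib
import Pool.Agent.MP_4e8562_co.H97.Upper

/-! From a colouring of the small side with roots and connectors to a tree partition. -/

namespace Pool.Agent.MP_4e8562_co.H66b

open Finset Pool.Agent.MP_4e8562_co.H97

theorem part_of_conn {n m r : ℕ} (hr : 0 < r) (χ : (K n m).edgeSet → Fin r) (c : Fin n → Fin r)
    (root : Fin n → Fin n) (con : Fin n → Fin m) (h1 : ∀ x, root (root x) = root x)
    (h2 : ∀ x, c (root x) = c x)
    (h3 : ∀ x, x ≠ root x → vec χ (con x) x = c x ∧ vec χ (con x) (root x) = c x)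
    (h4 : ∀ x x', x ≠ root x → x' ≠ root x' → con x = con x' → root x = root x') :
    Part (K n m) χ (#{x | root x = x} + av (vec χ) c) := by
  classical
  have hP : ∀ y, ∃ o : Option (Fin n), (∀ x, x ≠ root x → con x = y → o = some (root x)) ∧
      (∀ x, o = some x → vec χ y x = c x) ∧ (o = none → ∀ x, vec χ y x ≠ c x) := by
    intro y
    by_cases ha : ∃ x, x ≠ root x ∧ con x = y
    · obtain ⟨x, hx, rfl⟩ := ha
      refine ⟨some (root x), fun x' hx' e => by rw [h4 x' x hx' hx e], fun x' e => ?_, by simp⟩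
      rw [← Option.some.inj e, h2, (h3 x hx).2]
    · by_cases hb : ∃ x, vec χ y x = c x
      · obtain ⟨x, hx⟩ := hb
        exact ⟨some x, fun x' hx' e => absurd ⟨x', hx', e⟩ ha,
          fun x' e => Option.some.inj e ▸ hx, by simp⟩
      · exact ⟨none, fun x' hx' e => absurd ⟨x', hx', e⟩ ha, by simp,
          fun _ x hx => hb ⟨x, hx⟩⟩
  choose pa p1 p2 p3 using hP
  have h := part_of_parent (K n m) χ
    (Sum.elim (fun x => Sum.inl (root x)) fun y => (pa y).elim (Sum.inr y) fun x => Sum.inl (root x))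
    (Sum.elim (fun x => Sum.inr (con x)) fun y => (pa y).elim (Sum.inr y) Sum.inl)
    (Sum.elim c fun _ => ⟨0, hr⟩)
    (Sum.elim (fun x => if x = root x then 0 else 2)
      fun y => if ∃ x, x ≠ root x ∧ con x = y then 1 else 3) ?_ ?_
  · refine h.mono (le_trans (card_le_card (t := (({x | root x = x} : Finset (Fin n)).image Sum.inl) ∪
      (({b | ∀ a, vec χ b a ≠ c a} : Finset (Fin m)).image Sum.inr)) ?_)
      ((card_union_le _ _).trans (add_le_add card_image_le card_image_le)))
    rintro (x | y) hv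
    · simpa using hv
    · have hv' := (mem_filter.1 hv).2
      rcases e : pa y with _ | x
      · simpa using p3 y e
      · simp [e] at hv'
  · rintro (x | y)
    · simp [h1]
    · rcases e : pa y with _ | x <;> simp [e, h1]
  · rintro (x | y) hv
    · have hx : x ≠ root x := fun e => hv (congrArg Sum.inl e)
      refine ⟨by simp [p1 _ x hx rfl, h1], ?_, K_adj _ _, ?_⟩
      · simp only [Sum.elim_inl, Sum.elim_inr]
        rw [if_pos ⟨x, hx, rfl⟩, if_neg hx]
        norm_num
      · exact (h3 x hx).1.trans (h2 x).symm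
    · rcases e : pa y with _ | x
      · simp [e] at hv
      · simp only [Sum.elim_inl, Sum.elim_inr, e, Option.elim_some, true_and]
        refine ⟨?_, (K_adj _ _).symm, ?_⟩
        · split_ifs with a b
          · norm_num
          · norm_num
          · rename_i b
            obtain ⟨x', hx', rfl⟩ := b
            rw [p1 _ x' hx' rfl] at e
            exact absurd (by rw [← Option.some.inj e, h1]) a
          · norm_num
        · rw [h2, ← p2 y x e, vec]
          congr 2
          exact Sym2.eq_swap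

theorem part_of_plan {n m r : ℕ} (hr : 0 < r) (χ : (K n m).edgeSet → Fin r) (c : Fin n → Fin r)
    (J U : Finset (Fin n)) (hub : Fin r → Fin m)
    (hU : ∀ x ∈ U, ∀ x' ∈ U, vec χ (hub (c x)) x' = c x)
    (hJ : ∀ x, x ∉ U → x ∉ J → ∃ x' ∈ J, c x' = c x ∧
      n + r ≤ #{b | vec χ b x = c x ∧ vec χ b x' = c x}) :
    Part (K n m) χ (#J + #(U.image c) + av (vec χ) c) := by
  classical
  choose! nb nb1 nb2 nb3 using hJ
  have hrt : ∀ x, ∃ x', x ∈ U → x' ∈ U ∧ c x' = c x ∧
      ∀ z ∈ U, c z = c x → x' ≤ z := fun x => by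
    by_cases hx : x ∈ U
    · obtain ⟨x', h1, h2⟩ := exists_min_image {z ∈ U | c z = c x} id ⟨x, by simp [hx]⟩
      exact ⟨x', fun _ => ⟨(mem_filter.1 h1).1, (mem_filter.1 h1).2,
        fun z hz e => h2 z (mem_filter.2 ⟨hz, e⟩)⟩⟩
    · exact ⟨x, fun h => absurd h hx⟩
  choose rt hrt using hrt
  have rt_eq : ∀ x ∈ U, ∀ x' ∈ U, c x = c x' → rt x = rt x' := fun x hx x' hx' e =>
    le_antisymm ((hrt x hx).2.2 _ (hrt x' hx').1 ((hrt x' hx').2.1.trans e.symm))
      ((hrt x' hx').2.2 _ (hrt x hx).1 ((hrt x hx).2.1.trans e))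
  obtain ⟨f, hf, hf'⟩ := (all_card_le_biUnion_card_iff_exists_injective
    (fun x : {x // x ∉ U ∧ x ∉ J} =>
      ({b | vec χ b x = c x ∧ vec χ b (nb x) = c x} : Finset (Fin m)) \ univ.image hub)).1 (by
    intro s
    rcases s.eq_empty_or_nonempty with rfl | ⟨x, hx⟩
    · simp
    · refine le_trans ?_ (card_le_card (subset_biUnion_of_mem _ hx))
      have a1 := nb3 x x.2.1 x.2.2
      have a2 : #(univ.image hub) ≤ r := card_image_le.trans (by simp)
      have a3 : #s ≤ n := (card_le_univ s).trans ((Fintype.card_subtype_le _).trans (by simp))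
      have a4 := le_card_sdiff (univ.image hub)
        ({b | vec χ b x = c x ∧ vec χ b (nb x) = c x} : Finset (Fin m))
      omega)
  let root : Fin n → Fin n := fun x => if x ∈ J then x else if x ∈ U then rt x else nb x
  let con : Fin n → Fin m := fun x => if h : x ∉ U ∧ x ∉ J then f ⟨x, h⟩ else hub (c x)
  have r1 : ∀ x ∈ J, root x = x := fun x hx => if_pos hx
  have r2 : ∀ x ∈ U, x ∉ J → root x = rt x := fun x hx hj => (if_neg hj).trans (if_pos hx)
  have r3 : ∀ x, x ∉ U → x ∉ J → root x = nb x := fun x hx hj => (if_neg hj).trans (if_neg hx)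
  have c1 : ∀ x ∈ U, con x = hub (c x) := fun x hx => dif_neg fun h => h.1 hx
  have c2 : ∀ x (h : x ∉ U ∧ x ∉ J), con x = f ⟨x, h⟩ := fun x h => dif_pos h
  have c3 : ∀ x j, x ∉ U → x ∉ J → con x ≠ hub j := fun x j hx hj e =>
    (mem_sdiff.1 (hf' ⟨x, hx, hj⟩)).2 (by rw [← c2, e]; simp)
  refine (part_of_conn hr χ c root con (fun x => ?_) (fun x => ?_) (fun x hx => ?_)
    fun x x' hx hx' e => ?_).mono (Nat.add_le_add_right ?_ _)
  · by_cases hj : x ∈ J
    · rw [r1 x hj, r1 x hj]
    · by_cases hu : x ∈ U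
      · rw [r2 x hu hj]
        by_cases hj' : rt x ∈ J
        · exact r1 _ hj'
        · rw [r2 _ (hrt x hu).1 hj', rt_eq _ (hrt x hu).1 x hu (hrt x hu).2.1]
      · rw [r3 x hu hj, r1 _ (nb1 x hu hj)]
  · by_cases hj : x ∈ J
    · rw [r1 x hj]
    · by_cases hu : x ∈ U
      · rw [r2 x hu hj, (hrt x hu).2.1]
      · rw [r3 x hu hj, nb2 x hu hj]
  · have hj : x ∉ J := fun h => hx (r1 x h).symm
    by_cases hu : x ∈ U
    · rw [c1 x hu, r2 x hu hj]
      exact ⟨hU x hu x hu, hU x hu _ (hrt x hu).1⟩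
    · rw [c2 x ⟨hu, hj⟩, r3 x hu hj]
      exact (mem_filter.1 (mem_sdiff.1 (hf' ⟨x, hu, hj⟩)).1).2
  · have hj : x ∉ J := fun h => hx (r1 x h).symm
    have hj' : x' ∉ J := fun h => hx' (r1 x' h).symm
    by_cases hu : x ∈ U <;> by_cases hu' : x' ∈ U
    · rw [c1 x hu, c1 x' hu'] at e
      rw [r2 x hu hj, r2 x' hu' hj']
      exact rt_eq x hu x' hu' (by rw [← hU x hu x hu, e, hU x' hu' x hu])
    · exact absurd (e.symm.trans (c1 x hu)) (c3 x' _ hu' hj')
    · exact absurd (e.trans (c1 x' hu')) (c3 x _ hu hj)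
    · rw [c2 x ⟨hu, hj⟩, c2 x' ⟨hu', hj'⟩] at e
      rw [show x = x' from congrArg Subtype.val (hf e)]
  · refine le_trans (card_le_card (t := J ∪ {x ∈ U | rt x = x}) fun x hx => ?_)
      ((card_union_le _ _).trans (Nat.add_le_add_left ?_ _))
    · have hx' := (mem_filter.1 hx).2
      by_cases hj : x ∈ J
      · exact mem_union_left _ hj
      · by_cases hu : x ∈ U
        · exact mem_union_right _ (mem_filter.2 ⟨hu, (r2 x hu hj).symm.trans hx'⟩)
        · exact absurd (by rw [← hx', r3 x hu hj]; exact nb1 x hu hj) hj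
    · refine card_le_card_of_injOn c (fun x hx => mem_image_of_mem _ (mem_filter.1 hx).1)
        fun x hx x' hx' e => ?_
      obtain ⟨a, b⟩ := mem_filter.1 (mem_coe.1 hx)
      obtain ⟨a', b'⟩ := mem_filter.1 (mem_coe.1 hx')
      rw [← b, ← b', rt_eq x a x' a' e]

end Pool.Agent.MP_4e8562_co.H66b
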