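import Mathlib
import Pool.Agent.MP_4e8562_co.H66b.Avg

/-! Packing of independent sets and the strategy against good words. -/

namespace Pool.Agent.MP_4e8562_co.H66b

open Finset

variable {n r : ℕ} (Γ : Fin r → Fin n → Fin n → Prop)

/-- every colour class of the word is a clique -/
def Good (y : Fin n → Fin r) : Prop := ∀ x x', x ≠ x' → y x = y x' → Γ (y x) x x'

def Indep (j : Fin r) (I : Finset (Fin n)) : Prop := ∀ x ∈ I, ∀ x' ∈ I, x ≠ x' → ¬ Γ j x x'

theorem pack (hr : 0 < r) {a : ℕ} (ha : 0 < a) : ∃ (A : Finset (Fin n)) (g : Fin n → Fin r),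
    (∀ y, Good Γ y → a * #{x ∈ A | y x = g x} ≤ #A) ∧
      ∀ j I, I ⊆ Aᶜ → Indep Γ j I → #I < a := by
  classical
  obtain ⟨A, hA, hmax⟩ := exists_max_image (univ.filter fun A : Finset (Fin n) =>
    ∃ g : Fin n → Fin r, ∀ y, Good Γ y → a * #{x ∈ A | y x = g x} ≤ #A) card
    ⟨∅, mem_filter.2 ⟨mem_univ _, fun _ => ⟨0, hr⟩, by simp⟩⟩
  obtain ⟨g, hg⟩ := (mem_filter.1 hA).2
  refine ⟨A, g, hg, fun j I hI hi => ?_⟩
  by_contra hcon
  obtain ⟨I', h1, h2⟩ := exists_subset_card_eq (not_lt.1 hcon)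
  have hd : Disjoint A I' := disjoint_left.2 fun x hx hx' => mem_compl.1 (hI (h1 hx')) hx
  have h3 := hmax (A ∪ I') (mem_filter.2 ⟨mem_univ _, fun x => if x ∈ I' then j else g x,
    fun y hy => ?_⟩)
  · rw [card_union_of_disjoint hd] at h3
    omega
  · have h4 : #{x ∈ I' | y x = j} ≤ 1 := card_le_one.2 fun x hx x' hx' => by
      obtain ⟨a1, a2⟩ := mem_filter.1 hx
      obtain ⟨b1, b2⟩ := mem_filter.1 hx'
      by_contra hne
      exact hi x (h1 a1) x' (h1 b1) hne (a2 ▸ hy x x' hne (a2.trans b2.symm))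
    have h5 : #{x ∈ A ∪ I' | y x = if x ∈ I' then j else g x} ≤
        #{x ∈ A | y x = g x} + #{x ∈ I' | y x = j} := by
      refine le_trans (card_le_card fun x hx => ?_) (card_union_le _ _)
      obtain ⟨a1, a2⟩ := mem_filter.1 hx
      split_ifs at a2 with b
      · exact mem_union_right _ (mem_filter.2 ⟨b, a2⟩)
      · exact mem_union_left _ (mem_filter.2 ⟨(mem_union.1 a1).resolve_right b, a2⟩)
    have h6 := hg y hy
    rw [card_union_of_disjoint hd, h2]
    nlinarith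

theorem roots (hs : ∀ j x x', Γ j x x' → Γ j x' x) {a : ℕ} (Z : Finset (Fin n))
    (hZ : ∀ j I, I ⊆ Z → Indep Γ j I → #I < a) (c : Fin n → Fin r) :
    ∃ J ⊆ Z, #J ≤ r * a ∧ ∀ x ∈ Z, x ∉ J → ∃ x' ∈ J, c x' = c x ∧ Γ (c x) x x' := by
  classical
  obtain ⟨J, hJ, hmax⟩ := exists_max_image (univ.filter fun J : Finset (Fin n) =>
    J ⊆ Z ∧ ∀ x ∈ J, ∀ x' ∈ J, x ≠ x' → c x' = c x → ¬ Γ (c x) x x') card
    ⟨∅, mem_filter.2 ⟨mem_univ _, by simp⟩⟩
  obtain ⟨h1, h2⟩ := (mem_filter.1 hJ).2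
  refine ⟨J, h1, ?_, fun x hx hxJ => ?_⟩
  · rw [card_eq_sum_card_fiberwise (f := c) (t := univ) fun _ _ => mem_coe.2 (mem_univ _)]
    refine (sum_le_sum fun j _ => (hZ j _ ((filter_subset _ _).trans h1) ?_).le).trans (by simp)
    intro x hx x' hx' hne
    obtain ⟨a1, a2⟩ := mem_filter.1 hx
    obtain ⟨b1, b2⟩ := mem_filter.1 hx'
    exact a2 ▸ h2 x a1 x' b1 hne (b2.trans a2.symm)
  · by_contra hcon
    push Not at hcon
    have h3 := hmax (insert x J) (mem_filter.2 ⟨mem_univ _, insert_subset hx h1, ?_⟩)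
    · rw [card_insert_of_notMem hxJ] at h3
      omega
    · intro u hu v hv hne e
      rcases mem_insert.1 hu with rfl | hu' <;> rcases mem_insert.1 hv with rfl | hv'
      · exact absurd rfl hne
      · exact hcon v hv' e
      · exact fun h => hcon u hu' e.symm (e ▸ hs _ _ _ h)
      · exact h2 u hu' v hv' hne e

theorem cliques (hr : 0 < r) {β : Type} (W : β → Fin n → Fin r) (V : Finset (Fin n))
    (G : Finset β) {y₀ : β} (h₀ : y₀ ∈ G) (j : Fin r) (t : ℕ) :
    ∃ Y ⊆ G, y₀ ∈ Y ∧ #Y ≤ t + 1 ∧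
      ((∀ y ∈ G, 4 * r * #{x ∈ {x ∈ V | ∀ y ∈ Y, W y x ≠ j} | W y x = j} ≤
        #{x ∈ V | ∀ y ∈ Y, W y x ≠ j}) ∨
      (#{x ∈ V | ∀ y ∈ Y, W y x ≠ j} : ℝ) ≤ #V * (1 - 1 / (4 * r : ℝ)) ^ t) := by
  classical
  have hr1 : (1 : ℝ) ≤ r := by exact_mod_cast hr
  induction t with
  | zero =>
    exact ⟨{y₀}, by simpa using h₀, by simp, by simp, Or.inr (by
      simpa using card_filter_le _ _)⟩
  | succ t ih =>
    obtain ⟨Y, h1, h2, h3, h4⟩ := ih
    by_cases h5 : ∀ y ∈ G, 4 * r * #{x ∈ {x ∈ V | ∀ y ∈ Y, W y x ≠ j} | W y x = j} ≤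
        #{x ∈ V | ∀ y ∈ Y, W y x ≠ j}
    · exact ⟨Y, h1, h2, by omega, Or.inl h5⟩
    · have h6 := h4.resolve_left h5
      push Not at h5
      obtain ⟨y, hy, h5⟩ := h5
      refine ⟨insert y Y, insert_subset hy h1, mem_insert_of_mem h2,
        (card_insert_le _ _).trans (by omega), Or.inr ?_⟩
      have e : {x ∈ V | ∀ y' ∈ insert y Y, W y' x ≠ j} =
          {x ∈ {x ∈ V | ∀ y ∈ Y, W y x ≠ j} | ¬ W y x = j} := by
        ext x
        simp only [mem_filter, forall_mem_insert]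
        tauto
      have h7 := card_filter_add_card_filter_not (s := {x ∈ V | ∀ y ∈ Y, W y x ≠ j})
        fun x => W y x = j
      rw [e, pow_succ, ← mul_assoc]
      have h8 : (0 : ℝ) ≤ 1 - 1 / (4 * r) := by
        rw [sub_nonneg, div_le_one] <;> linarith
      refine le_trans ?_ (mul_le_mul_of_nonneg_right h6 h8)
      rw [← h7] at h5 ⊢
      have h9 := (Nat.cast_lt (α := ℝ)).2 h5
      push_cast at h9 ⊢
      have : ∀ u v : ℝ, u + v < 4 * r * u → v ≤ (u + v) * (1 - 1 / (4 * r)) := fun u v h => by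
        have : (u + v) / (4 * r) ≤ u := by rw [div_le_iff₀ (by linarith)]; linarith
        rw [mul_sub, mul_one_div]
        linarith
      exact this _ _ h9

theorem prod_le (hr : 2 ≤ r) (V : Finset (Fin n)) (h : Fin n → ℝ) (h1 : ∀ x, h x ≤ 1) {s : ℝ}
    (hs : 0 ≤ s) (hh : #V / (r : ℝ) + s ≤ ∑ x ∈ V, h x) :
    ∏ x ∈ V, (1 - h x) ≤ (1 - 1 / (r : ℝ)) ^ #V * Real.exp (-s) := by
  have hr2 : (2 : ℝ) ≤ r := by exact_mod_cast hr
  set ρ : ℝ := 1 - 1 / (r : ℝ) with hρ
  have h0 : 0 < ρ := by rw [hρ, sub_pos, div_lt_one] <;> linarith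
  have h2 : ρ ≤ 1 := sub_le_self _ (by positivity)
  calc _ ≤ ∏ x ∈ V, ρ * Real.exp ((1 / r - h x) / ρ) :=
        prod_le_prod (fun x _ => sub_nonneg.2 (h1 x)) fun x _ => by
          refine le_trans (le_of_eq ?_) (mul_le_mul_of_nonneg_left (Real.add_one_le_exp _) h0.le)
          rw [mul_add, mul_div_cancel₀ _ h0.ne', hρ]
          ring
    _ = ρ ^ #V * Real.exp ((#V / r - ∑ x ∈ V, h x) / ρ) := by
        rw [prod_mul_distrib, prod_const, ← Real.exp_sum, ← sum_div, sum_sub_distrib, sum_const,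
          nsmul_eq_mul, mul_one_div]
    _ ≤ _ := by
        refine mul_le_mul_of_nonneg_left (Real.exp_le_exp.2 ?_) (by positivity)
        rw [div_le_iff₀ h0]
        nlinarith

theorem strategy (hr : 2 ≤ r) {β : Type} (W : β → Fin n → Fin r) (V : Finset (Fin n))
    (G : Finset β) {y₀ : β} (h₀ : y₀ ∈ G) (hG : ∀ y ∈ G, Good Γ (W y)) (g : Fin n → Fin r)
    (hg : ∀ y ∈ G, 8 * r * #{x ∈ V | W y x = g x} ≤ #V) {t : ℕ}
    (ht : (1 - 1 / (4 * r : ℝ)) ^ t ≤ 1 / (16 * r ^ 2)) :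
    ∃ (c : Fin n → Fin r) (J : Finset (Fin n)), J ⊆ V ∧ #J ≤ r * (t + 1) ∧
      (∀ x ∈ V, x ∉ J → ∃ x' ∈ J, c x' = c x ∧ Γ (c x) x x') ∧
      (#(avd W G V c) : ℝ) ≤
        #G * ((1 - 1 / (r : ℝ)) ^ #V * Real.exp (-(#V / (8 * r ^ 2)))) := by
  classical
  have hr2 : (2 : ℝ) ≤ r := by exact_mod_cast hr
  choose Y Y1 Y2 Y3 Y4 using fun j => cliques (by omega) W V G h₀ j t
  let al : Fin n → Finset (Fin r) := fun x => {j | ∃ y ∈ Y j, W y x = j}
  let B : Fin n → Finset (Fin r) := fun x =>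
    if ((al x).erase (g x)).Nonempty then (al x).erase (g x) else {W y₀ x}
  have hB : ∀ x, (B x).Nonempty := fun x => by
    simp only [B]
    split_ifs with h
    exacts [h, singleton_nonempty _]
  obtain ⟨c, hc, hav⟩ := avg W G V B hB
  have hc' : ∀ x, ∃ y ∈ Y (c x), W y x = c x := fun x => by
    have := hc x
    simp only [B] at this
    split_ifs at this
    · exact (mem_filter.1 (mem_of_mem_erase this)).2
    · exact ⟨y₀, Y2 _, (mem_singleton.1 this).symm⟩
  choose yy y1 y2 using hc'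
  have hrep : ∀ x, ∃ x', x ∈ V → x' ∈ V ∧ (c x', yy x') = (c x, yy x) ∧
      ∀ z ∈ V, (c z, yy z) = (c x, yy x) → x' ≤ z := fun x => by
    by_cases hx : x ∈ V
    · obtain ⟨x', h1, h2⟩ := exists_min_image {z ∈ V | (c z, yy z) = (c x, yy x)} id
        ⟨x, by simp [hx]⟩
      exact ⟨x', fun _ => ⟨(mem_filter.1 h1).1, (mem_filter.1 h1).2,
        fun z hz e => h2 z (mem_filter.2 ⟨hz, e⟩)⟩⟩
    · exact ⟨x, fun h => absurd h hx⟩
  choose rp hrp using hrep
  have rp_eq : ∀ x ∈ V, ∀ x' ∈ V, (c x, yy x) = (c x', yy x') → rp x = rp x' :=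
    fun x hx x' hx' e => le_antisymm ((hrp x hx).2.2 _ (hrp x' hx').1 ((hrp x' hx').2.1.trans e.symm))
      ((hrp x' hx').2.2 _ (hrp x hx).1 ((hrp x hx).2.1.trans e))
  refine ⟨c, {x ∈ V | rp x = x}, filter_subset _ _, ?_, fun x hx hxJ => ?_, hav.trans ?_⟩
  · refine le_trans (card_le_card_of_injOn (t := univ.biUnion fun j => (Y j).image (Prod.mk j))
      (fun x => (c x, yy x)) (fun x _ => ?_) fun x hx x' hx' e => ?_) ?_
    · exact mem_coe.2 (mem_biUnion.2 ⟨c x, mem_univ _, mem_image_of_mem _ (y1 x)⟩)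
    · obtain ⟨a, b⟩ := mem_filter.1 (mem_coe.1 hx)
      obtain ⟨a', b'⟩ := mem_filter.1 (mem_coe.1 hx')
      rw [← b, ← b', rp_eq x a x' a' e]
    · exact card_biUnion_le.trans ((sum_le_sum fun j _ => card_image_le.trans (Y3 j)).trans
        (by simp))
  · obtain ⟨a1, a2, -⟩ := hrp x hx
    obtain ⟨b1, b2⟩ := Prod.ext_iff.1 a2
    refine ⟨rp x, mem_filter.2 ⟨a1, rp_eq _ a1 x hx a2⟩, b1, ?_⟩
    have := hG _ (Y1 _ (y1 x)) x (rp x) (fun e => hxJ (mem_filter.2 ⟨hx, e.symm⟩))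
      (by rw [y2 x, ← show yy (rp x) = yy x from b2, y2]; exact b1.symm)
    rwa [y2] at this
  · rw [← nsmul_eq_mul]
    refine sum_le_card_nsmul _ _ _ fun y hy => prod_le hr V _ (fun x => ?_) (by positivity) ?_
    · split_ifs
      · rw [div_le_one (by exact_mod_cast (hB x).card_pos)]
        exact_mod_cast (hB x).card_pos
      · exact zero_le_one
    let R : Fin r → Finset (Fin n) := fun j => {x ∈ V | ∀ y ∈ Y j, W y x ≠ j}
    have key : ∀ x ∈ V, 1 / (r : ℝ) + (1 + ∑ j, if x ∈ R j then (1 : ℝ) else 0) / (2 * r ^ 2) -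
        2 / r * ((if W y x = g x then 1 else 0) +
          ∑ j, if x ∈ R j ∧ W y x = j then (1 : ℝ) else 0) ≤
        if W y x ∈ B x then 1 / (#(B x) : ℝ) else 0 := fun x hx => by
      have hR : ∀ j, x ∈ R j ↔ j ∉ al x := fun j => by simp [R, al, hx]
      have e1 : (∑ j, if x ∈ R j then (1 : ℝ) else 0) = r - #(al x) := by
        rw [sum_boole, eq_sub_iff_add_eq, ← Nat.cast_add]
        congr 1
        rw [show ({j | x ∈ R j} : Finset (Fin r)) = (al x)ᶜ by ext j; simp [hR],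
          card_compl_add_card, Fintype.card_fin]
      have e2 : (∑ j, if x ∈ R j ∧ W y x = j then (1 : ℝ) else 0) =
          if W y x ∈ al x then 0 else 1 := by
        rw [sum_eq_single (W y x) (fun j _ hj => if_neg fun h => hj h.2.symm) (by simp)]
        simp [hR]
      rw [e1, e2]
      by_cases hm : W y x ∈ (al x).erase (g x)
      · have hb : B x = (al x).erase (g x) := if_pos ⟨_, hm⟩
        rw [hb, if_pos hm, if_neg (ne_of_mem_erase hm), if_pos (mem_of_mem_erase hm)]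
        have b0 : (0 : ℝ) < #((al x).erase (g x)) := by exact_mod_cast card_pos.2 ⟨_, hm⟩
        have b1 : (#((al x).erase (g x)) : ℝ) ≤ #(al x) := by exact_mod_cast card_erase_le
        have b2 : (#((al x).erase (g x)) : ℝ) + 1 ≤ r := by
          have := card_le_card (erase_subset_erase (g x) (subset_univ (al x)))
          rw [card_erase_of_mem (mem_univ _), card_univ, Fintype.card_fin] at this
          exact_mod_cast (by omega : #((al x).erase (g x)) + 1 ≤ r)
        generalize (#((al x).erase (g x)) : ℝ) = b at b0 b1 b2 ⊢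
        have b3 : (2 * r - b) / r ^ 2 ≤ 1 / b := by
          rw [div_le_div_iff₀ (by positivity) b0]
          nlinarith [sq_nonneg (r - b)]
        refine le_trans ?_ b3
        rw [add_zero, mul_zero, sub_zero, le_div_iff₀ (by positivity)]
        field_simp
        linarith
      · refine le_trans ?_ (show (0 : ℝ) ≤ _ by split_ifs <;> positivity)
        have b1 : (1 : ℝ) ≤ (if W y x = g x then 1 else 0) + if W y x ∈ al x then 0 else 1 := by
          rw [mem_erase, not_and_or, not_not] at hm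
          split_ifs <;> simp_all
        have b2 : (1 + (r - #(al x)) : ℝ) / (2 * r ^ 2) ≤ 1 / r := by
          rw [div_le_div_iff₀ (by positivity) (by positivity)]
          nlinarith [(Nat.cast_nonneg _ : (0 : ℝ) ≤ #(al x))]
        have b3 : (2 : ℝ) / r = 1 / r + 1 / r := by ring
        nlinarith [mul_le_mul_of_nonneg_left b1 (by positivity : (0 : ℝ) ≤ 2 / r)]
    refine le_trans ?_ (sum_le_sum key)
    have s1 : ∑ x ∈ V, ∑ j, (if x ∈ R j then (1 : ℝ) else 0) = ∑ j, (#(R j) : ℝ) := by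
      rw [sum_comm]
      refine sum_congr rfl fun j _ => ?_
      rw [sum_boole, filter_mem_eq_inter, inter_eq_right.2 (filter_subset _ _)]
    have s2 : ∑ x ∈ V, ∑ j, (if x ∈ R j ∧ W y x = j then (1 : ℝ) else 0) ≤
        ∑ j, ((#(R j) : ℝ) / (4 * r) + #V / (16 * r ^ 2)) := by
      rw [sum_comm]
      refine sum_le_sum fun j _ => ?_
      rw [sum_boole, show {x ∈ V | x ∈ R j ∧ W y x = j} = {x ∈ R j | W y x = j} by
        ext x; simp only [R, mem_filter]; tauto]
      rcases Y4 j with h | h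
      · refine le_trans ?_ (le_add_of_nonneg_right (by positivity))
        rw [le_div_iff₀ (by positivity), mul_comm]
        exact_mod_cast h y hy
      · refine le_trans ?_ (le_add_of_nonneg_left (by positivity))
        refine le_trans (Nat.cast_le.2 (card_filter_le _ _)) (h.trans ?_)
        rw [div_eq_mul_one_div (#V : ℝ)]
        exact mul_le_mul_of_nonneg_left ht (Nat.cast_nonneg _)
    have s3 : (∑ x ∈ V, if W y x = g x then (1 : ℝ) else 0) ≤ #V / (8 * r) := by
      rw [sum_boole, le_div_iff₀ (by positivity), mul_comm]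
      exact_mod_cast hg y hy
    rw [sum_add_distrib, ← sum_div, sum_const, card_univ, Fintype.card_fin, nsmul_eq_mul] at s2
    rw [sum_sub_distrib, sum_add_distrib, sum_const, ← sum_div, sum_add_distrib, s1, ← mul_sum,
      sum_add_distrib, sum_const, nsmul_eq_mul, nsmul_eq_mul]
    have s4 := mul_le_mul_of_nonneg_left (add_le_add s3 s2) (by positivity : (0 : ℝ) ≤ 2 / r)
    refine le_trans (le_of_eq ?_) (sub_le_sub_left s4 _)
    field_simp
    ring

end Pool.Agent.MP_4e8562_co.H66b
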