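import Mathlib
import Pool.Agent.MP_4e8562_co.H66b.Strat
import Pool.Agent.MP_4e8562_co.H66b.Plan
import Pool.Agent.MP_4e8562_co.H78.Upper

/-! Exceptional words and the gluing lemmas. -/

namespace Pool.Agent.MP_4e8562_co.H66b

open Finset Pool.Agent.MP_4e8562_co.H97 Pool.Agent.MP_4e8562_co.H78

variable {n m r : ℕ}

/-- many common neighbours in colour `j` -/
def adj (W : Fin m → Fin n → Fin r) (j : Fin r) (x x' : Fin n) : Prop :=
  n + r ≤ #{b | W b x = j ∧ W b x' = j}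

theorem adj_symm (W : Fin m → Fin n → Fin r) (j : Fin r) (x x' : Fin n) (h : adj W j x x') :
    adj W j x' x := by
  simpa only [adj, and_comm] using h

theorem exists_exc (W : Fin m → Fin n → Fin r) :
    ∃ E : Finset (Fin m), #E ≤ r * n * n * (n + r) ∧ ∀ y, y ∉ E → Good (adj W) (W y) := by
  classical
  refine ⟨(univ.filter fun e : Fin r × Fin n × Fin n => ¬ adj W e.1 e.2.1 e.2.2).biUnion
    fun e => {b | W b e.2.1 = e.1 ∧ W b e.2.2 = e.1}, ?_, fun y hy x x' _ e => ?_⟩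
  · refine (card_biUnion_le_card_mul _ _ (n + r) fun e he => by
      have := (mem_filter.1 he).2
      exact (not_le.1 this).le).trans (Nat.mul_le_mul_right _ ?_)
    exact (card_le_univ _).trans (by simp [mul_assoc])
  · by_contra h
    exact hy (mem_biUnion.2 ⟨(W y x, x, x'), mem_filter.2 ⟨mem_univ _, h⟩, by simp [e]⟩)

/-- a cover of `E` by stars at `J` and trees with hubs on `U` -/
def Cov (W : Fin m → Fin n → Fin r) (E : Finset (Fin m)) (u k : ℕ) : Prop :=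
  ∃ (U J : Finset (Fin n)) (c : Fin n → Fin r) (hub : Fin r → Fin m), #(U ∪ J) ≤ u ∧ #J ≤ k ∧
    (∀ x ∈ U, ∀ x' ∈ U, W (hub (c x)) x' = c x) ∧ ∀ y ∈ E, ∃ x ∈ U ∪ J, W y x = c x

theorem cov_star (hr : 0 < r) (hm : 0 < m) (W : Fin m → Fin n → Fin r) (E : Finset (Fin m)) {d : ℕ}
    (hd : d ≤ n) (hE : #E * (1 - 1 / (r : ℝ)) ^ d < 1) : Cov W E d d := by
  obtain ⟨J, -, hJ⟩ := exists_subset_card_eq (s := (univ : Finset (Fin n))) (by simpa using hd)
  obtain ⟨c, hc⟩ := greedy hr W E J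
  rw [hJ] at hc
  have h0 : avd W E J c = ∅ := card_eq_zero.1 (Nat.lt_one_iff.1 (by exact_mod_cast hc.trans_lt hE))
  refine ⟨∅, J, c, fun _ => ⟨0, hm⟩, by simp [hJ], hJ.le, by simp, fun y hy => ?_⟩
  by_contra h
  push Not at h
  exact notMem_empty y (h0 ▸ mem_avd.2 ⟨hy, fun x hx => h x (by simpa using hx)⟩)

theorem cov_hub (hr : 0 < r) (hm : 0 < m) (W : Fin m → Fin n → Fin r) (E : Finset (Fin m))
    {d u : ℕ} (hu : u ≤ n) (hd : r ^ r * d ≤ u) (hE : #E * (r - 1) ^ d < r ^ d) : Cov W E u 0 := by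
  classical
  have : Nonempty (Fin m) := ⟨⟨0, hm⟩⟩
  obtain ⟨I, hub, N, h1, h2⟩ := exists_hub hr fun (b : Fin m) (a : Fin u) => W b (Fin.castLE hu a)
  rw [Fintype.card_fin] at h2
  obtain ⟨ψ, hψ⟩ := exists_hit (d := d) hr (fun (b : E) (a : Fin u) => W b (Fin.castLE hu a))
    (fun b => {a ∈ N | W b (Fin.castLE hu a) ∈ I})
    (fun b => Nat.le_of_mul_le_mul_left (hd.trans (h2 b)) (by positivity)) (by simpa using hE)
  refine ⟨{a ∈ N | ψ a ∈ I}.image (Fin.castLE hu), ∅,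
    fun x => if h : x.1 < u then ψ ⟨x, h⟩ else ⟨0, hr⟩, hub, ?_, le_rfl, fun x hx x' hx' => ?_,
    fun y hy => ?_⟩
  · rw [union_empty]
    exact card_image_le.trans ((card_le_univ _).trans (by simp))
  · obtain ⟨a, ha, rfl⟩ := mem_image.1 hx
    obtain ⟨a', ha', rfl⟩ := mem_image.1 hx'
    simpa using h1 _ (mem_filter.1 ha).2 _ (mem_filter.1 ha').1
  · obtain ⟨a, ha, e⟩ := hψ ⟨y, hy⟩
    refine ⟨Fin.castLE hu a, mem_union_left _ (mem_image_of_mem _ (mem_filter.2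
      ⟨(mem_filter.1 ha).1, e ▸ (mem_filter.1 ha).2⟩)), by simpa using e.symm⟩

theorem glueA (hr : 0 < r) (hm : 0 < m) (χ : (K n m).edgeSet → Fin r) {a : ℕ}
    (A J : Finset (Fin n)) (c₁ c₂ : Fin n → Fin r) (hJ : J ⊆ A)
    (h : ∀ x ∈ A, x ∉ J → ∃ x' ∈ J, c₁ x' = c₁ x ∧ adj (vec χ) (c₁ x) x x')
    (hZ : ∀ j I, I ⊆ Aᶜ → Indep (adj (vec χ)) j I → #I < a) :
    Part (K n m) χ (#J + r * a + #(avd (vec χ) (avd (vec χ) univ A c₁) Aᶜ c₂)) := by
  let c : Fin n → Fin r := fun x => if x ∈ A then c₁ x else c₂ x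
  obtain ⟨J', j1, j2, j3⟩ := roots _ (adj_symm (vec χ)) Aᶜ hZ c
  refine (part_of_plan hr χ c (J ∪ J') ∅ (fun _ => ⟨0, hm⟩) (by simp) fun x _ hx => ?_).mono ?_
  · rw [mem_union, not_or] at hx
    by_cases hA : x ∈ A
    · obtain ⟨x', a1, a2, a3⟩ := h x hA hx.1
      have e : c x = c₁ x := if_pos hA
      exact ⟨x', mem_union_left _ a1, by rw [e, ← a2]; exact if_pos (hJ a1), e ▸ a3⟩
    · obtain ⟨x', a1, a2, a3⟩ := j3 x (mem_compl.2 hA) hx.2
      exact ⟨x', mem_union_right _ a1, a2, a3⟩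
  · refine add_le_add (by simpa using (card_union_le _ _).trans (Nat.add_le_add_left j2 _))
      (card_le_card fun y hy => ?_)
    have hy' := (mem_filter.1 hy).2
    exact mem_avd.2 ⟨mem_avd.2 ⟨mem_univ _, fun x hx => by simpa [c, hx] using hy' x⟩,
      fun x hx => by simpa [c, mem_compl.1 hx] using hy' x⟩

theorem glueB (hr : 0 < r) (χ : (K n m).edgeSet → Fin r) (E : Finset (Fin m))
    (U J₀ J : Finset (Fin n)) (c₀ c₁ : Fin n → Fin r) (hub : Fin r → Fin m)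
    (hU : ∀ x ∈ U, ∀ x' ∈ U, vec χ (hub (c₀ x)) x' = c₀ x)
    (hE : ∀ y ∈ E, ∃ x ∈ U ∪ J₀, vec χ y x = c₀ x) (hJ : J ⊆ (U ∪ J₀)ᶜ)
    (h : ∀ x ∈ (U ∪ J₀)ᶜ, x ∉ J → ∃ x' ∈ J, c₁ x' = c₁ x ∧ adj (vec χ) (c₁ x) x x') :
    Part (K n m) χ (#J₀ + #J + r + #(avd (vec χ) Eᶜ (U ∪ J₀)ᶜ c₁)) := by
  let c : Fin n → Fin r := fun x => if x ∈ U ∪ J₀ then c₀ x else c₁ x
  refine (part_of_plan hr χ c (J₀ ∪ J) U hub (fun x hx x' hx' => ?_) fun x hu hx => ?_).mono ?_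
  · rw [show c x = c₀ x from if_pos (mem_union_left _ hx)]
    exact hU x hx x' hx'
  · rw [mem_union, not_or] at hx
    have hA : x ∉ U ∪ J₀ := by simp [hu, hx.1]
    obtain ⟨x', a1, a2, a3⟩ := h x (mem_compl.2 hA) hx.2
    have e : c x = c₁ x := if_neg hA
    exact ⟨x', mem_union_right _ a1, by rw [e, ← a2]; exact if_neg (mem_compl.1 (hJ a1)), e ▸ a3⟩
  · refine add_le_add (add_le_add (card_union_le _ _) ((card_le_univ _).trans (by simp)))
      (card_le_card fun y hy => ?_)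
    have hy' := (mem_filter.1 hy).2
    refine mem_avd.2 ⟨mem_compl.2 fun hyE => ?_, fun x hx => ?_⟩
    · obtain ⟨x, hx, e⟩ := hE y hyE
      exact hy' x (e.trans (if_pos hx).symm)
    · rw [← show c x = c₁ x from if_neg (mem_compl.1 hx)]
      exact hy' x

end Pool.Agent.MP_4e8562_co.H66b
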