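import Mathlib

/-! Numerical estimates. -/

namespace Pool.Agent.MP_4e8562_co.H66b

open Real

theorem log_ge {r : ℝ} (hr : 2 ≤ r) : 0.69 ≤ log r := by
  have := log_two_gt_d9
  have := log_le_log (by norm_num) hr
  linarith

theorem n1 {r z : ℝ} (hr : 2 ≤ r) (hz : 6000 * r ^ 2 * log r ≤ z) : 256 * r ^ 2 * log z ≤ z := by
  have hl := log_ge hr
  have hz0 : 0 < z := lt_of_lt_of_le (by positivity) hz
  have h1 := log_le_sub_one_of_pos (by positivity : 0 < z / (2 ^ 9 * r ^ 2))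
  rw [log_div hz0.ne' (by positivity), log_mul (by positivity) (by positivity), log_pow, log_pow] at h1
  have h2 := log_le_log (by norm_num) hr
  have h3 : 256 * r ^ 2 * (z / (2 ^ 9 * r ^ 2)) = z / 2 := by field_simp; norm_num
  have h4 : log z ≤ z / (2 ^ 9 * r ^ 2) + 11 * log r := by push_cast at h1; linarith
  nlinarith [mul_le_mul_of_nonneg_left h4 (by positivity : 0 ≤ 256 * r ^ 2),
    mul_pos (by positivity : 0 < r ^ 2) (by linarith : 0 < log r)]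

theorem rho_le {r : ℝ} (hr : 1 ≤ r) (k : ℕ) : (1 - 1 / r) ^ k ≤ exp (-(k / r)) := by
  rw [show -(k / r) = k * -(1 / r) by ring, exp_nat_mul]
  refine pow_le_pow_left₀ (by rw [sub_nonneg, div_le_one] <;> linarith) ?_ k
  linarith [add_one_le_exp (-(1 / r))]

theorem le_rho {r : ℝ} (hr : 2 ≤ r) (k : ℕ) : exp (-(2 * k / r)) ≤ (1 - 1 / r) ^ k := by
  rw [show -(2 * k / r) = k * -(2 * (1 / r)) by ring, exp_nat_mul]
  refine pow_le_pow_left₀ (exp_pos _).le ?_ k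
  have h0 : 0 ≤ 1 / r := by positivity
  have h1 : 2 * (1 / r) ≤ 1 := by rw [mul_one_div, div_le_one] <;> linarith
  have h2 := add_one_le_exp (2 * (1 / r))
  rw [exp_neg, inv_le_iff_one_le_mul₀ (exp_pos _)]
  nlinarith [mul_nonneg h0 (sub_nonneg.mpr h1)]

theorem exists_t {r : ℕ} (hr : 2 ≤ r) : ∃ t : ℕ, (1 - 1 / (4 * r : ℝ)) ^ t ≤ 1 / (16 * r ^ 2) ∧
    (r * (t + 1) : ℝ) ≤ 26 * r ^ 2 * log r := by
  have hr2 : (2 : ℝ) ≤ r := by exact_mod_cast hr
  have hl := log_ge hr2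
  have h2 := log_le_log (by norm_num) hr2
  refine ⟨⌈4 * r * log (16 * r ^ 2)⌉₊, (rho_le (by linarith) _).trans ?_, ?_⟩
  · rw [one_div, ← exp_log (by positivity : (0 : ℝ) < 16 * r ^ 2), ← exp_neg, exp_le_exp,
      neg_le_neg_iff, log_exp, le_div_iff₀ (by positivity), mul_comm]
    exact Nat.le_ceil _
  · have h3 : log (16 * r ^ 2) ≤ 6 * log r := by
      rw [show (16 : ℝ) = 2 ^ 4 by norm_num, log_mul (by positivity) (by positivity), log_pow,
        log_pow]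
      push_cast
      linarith
    have h4 := Nat.ceil_lt_add_one (a := 4 * r * log (16 * r ^ 2))
      (mul_nonneg (by positivity) (log_nonneg (by nlinarith)))
    have h5 : (⌈4 * r * log (16 * r ^ 2)⌉₊ + 1 : ℝ) ≤ 26 * r * log r := by nlinarith
    nlinarith

theorem hub_num {r n d : ℕ} (hr : 2 ≤ r) (hn : 0 < n) (hd : (d : ℝ) ≤ 4 * r * log n + 1)
    (h : 16 * r * log r ≤ log n) : 64 * r * (r ^ r * (d + r)) ≤ n := by
  have hr2 : (2 : ℝ) ≤ r := by exact_mod_cast hr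
  set u := exp (log n / 4) with hu
  set P : ℝ := (r : ℝ) ^ r with hP
  have h1 : r ^ 2 ≤ P := pow_le_pow_right₀ (by linarith) hr
  have h2 : P ^ 4 ≤ u := by
    rw [hP, ← pow_mul, ← exp_log (by positivity : (0 : ℝ) < r ^ (r * 4)), log_pow, exp_le_exp]
    push_cast
    linarith
  have h3 : u ^ 4 = n := by
    rw [hu, ← exp_nat_mul, ← exp_log (by positivity : (0 : ℝ) < n), log_exp]
    congr 1
    push_cast
    ring
  have h4 := add_one_le_exp (log n / 4)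
  have h5 : 4 ≤ P := by nlinarith
  have h6 : 16 * P ^ 2 ≤ u := by nlinarith [mul_le_mul_of_nonneg_right (by nlinarith : 16 ≤ P ^ 2) (sq_nonneg P)]
  have h7 : 256 ≤ u := by nlinarith
  have h8 : (d + r : ℝ) ≤ 18 * r * u := by nlinarith
  have h9 : (64 * r * (P * (d + r)) : ℝ) ≤ u ^ 4 :=
    calc (64 * r * (P * (d + r)) : ℝ) ≤ 64 * r * (P * (18 * r * u)) := by gcongr
      _ = 1152 * (r ^ 2 * P) * u := by ring
      _ ≤ 1152 * (P * P) * u := by gcongr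
      _ = 72 * (16 * P ^ 2) * u := by ring
      _ ≤ (u * u) * u * u := by gcongr; nlinarith
      _ = u ^ 4 := by ring
  rw [h3, hP] at h9
  exact_mod_cast h9

theorem exists_d {r n : ℕ} (hr : 2 ≤ r) (hn : 0 < n) : ∃ d : ℕ, (d : ℝ) ≤ 4 * r * log n + 1 ∧
    (n ^ 4 * (1 - 1 / (r : ℝ)) ^ d < 1) ∧ n ^ 4 * (r - 1) ^ d < r ^ d := by
  have hr2 : (2 : ℝ) ≤ r := by exact_mod_cast hr
  have hn0 : (0 : ℝ) < n := by exact_mod_cast hn
  have h0 : 0 ≤ 4 * r * log n := mul_nonneg (by positivity) (log_natCast_nonneg n)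
  have h1 : (n ^ 4 * (1 - 1 / (r : ℝ)) ^ (⌊4 * r * log n⌋₊ + 1) < 1) := by
    refine lt_of_le_of_lt (mul_le_mul_of_nonneg_left (rho_le (by linarith) _) (by positivity)) ?_
    rw [← exp_log (by positivity : (0 : ℝ) < n ^ 4), ← exp_add, log_pow, exp_lt_one_iff,
      add_neg_lt_iff_lt_add, zero_add, lt_div_iff₀ (by positivity)]
    have := Nat.lt_floor_add_one (4 * r * log n)
    push_cast
    linarith
  refine ⟨⌊4 * r * log n⌋₊ + 1, by push_cast; linarith [Nat.floor_le h0], h1, ?_⟩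
  rw [show 1 - 1 / (r : ℝ) = (r - 1) / r by field_simp, div_pow, ← mul_div_assoc,
    div_lt_one (by positivity)] at h1
  have e : ((r - 1 : ℕ) : ℝ) = r - 1 := by rw [Nat.cast_sub (by omega), Nat.cast_one]
  rw [← e] at h1
  exact_mod_cast h1

theorem exists_T {r w : ℕ} (hr : 2 ≤ r) (hw : 6000 * r ^ 2 * log r ≤ w) : ∃ T : ℕ, 0 < T ∧
    2 * (w * log r) < T * (1 - 1 / (r : ℝ)) ^ w ∧ T * (1 - 1 / (r : ℝ)) ^ w ≤ 3 * (w * log r) ∧
    2 * T * ((1 - 1 / (r : ℝ)) ^ w * exp (-(w / (8 * r ^ 2)))) ≤ 1 := by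
  have hr2 : (2 : ℝ) ≤ r := by exact_mod_cast hr
  have hl := log_ge hr2
  have h0 : 0 < 1 - 1 / (r : ℝ) := by rw [sub_pos, div_lt_one] <;> linarith
  have hp := pow_pos h0 w
  have hp1 : (1 - 1 / (r : ℝ)) ^ w ≤ 1 := pow_le_one₀ h0.le (sub_le_self _ (by positivity))
  set p := (1 - 1 / (r : ℝ)) ^ w
  have hw1 : 6000 * log r ≤ w := by nlinarith [mul_nonneg (by nlinarith : (0 : ℝ) ≤ r ^ 2 - 1) (by linarith : 0 ≤ log r)]
  have hw0 : (0 : ℝ) < w := by linarith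
  have h1 := Nat.lt_floor_add_one (2 * (w * log r) / p)
  have h2 := Nat.floor_le (by positivity : 0 ≤ 2 * (w * log r) / p)
  rw [div_lt_iff₀ hp] at h1
  rw [le_div_iff₀ hp] at h2
  have h3 : ((⌊2 * (w * log r) / p⌋₊ + 1 : ℕ) : ℝ) * p ≤ 3 * (w * log r) := by
    push_cast
    nlinarith
  refine ⟨⌊2 * (w * log r) / p⌋₊ + 1, Nat.succ_pos _, by exact_mod_cast h1, h3, ?_⟩
  have h4 := n1 hr2 hw
  have h5 : 6 * (w * log r) ≤ exp (w / (8 * r ^ 2)) := by
    have a1 : (w : ℝ) ^ 3 ≤ exp (w / (8 * r ^ 2)) := by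
      rw [← exp_log (by positivity : (0 : ℝ) < w ^ 3), exp_le_exp, log_pow,
        le_div_iff₀ (by positivity)]
      push_cast
      nlinarith [mul_nonneg (sq_nonneg (r : ℝ)) (log_natCast_nonneg w)]
    have a2 : 6 * log r ≤ (w : ℝ) ^ 2 := by nlinarith
    nlinarith
  rw [exp_neg, ← mul_assoc, mul_inv_le_iff₀ (exp_pos _)]
  linarith

end Pool.Agent.MP_4e8562_co.H66b
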