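import Mathlib
import Pool.Agent.MP_4e8562_co.H66b.Exc
import Pool.Agent.MP_4e8562_co.H66b.Num
import Pool.Agent.MP_4e8562_co.H66.Upper

/-! The upper bound for all `n ≤ m`. -/

namespace Pool.Agent.MP_4e8562_co.H66b

open Finset Real Pool.Agent.MP_4e8562_co.H97 Pool.Agent.MP_4e8562_co.H78
  Pool.Agent.MP_4e8562_co.H66

variable {n m r : ℕ}

theorem exists_opt (hr : 0 < r) (W : Fin m → Fin n → Fin r) : ∃ c, av W c ≤ Psi r n m := by
  obtain ⟨c, hc⟩ := exists_le_Psi (x := m) hr (univ : Finset (Fin m)) (by simp) W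
  exact ⟨c, hc⟩

theorem small_m (hr : 2 ≤ r) (hn : 6000 * r ^ 2 * log r ≤ n) (hnm : n ≤ m) (hm : m ≤ n ^ 4)
    (χ : (K n m).edgeSet → Fin r) : ∃ k, Part (K n m) χ k ∧ (k : ℝ) ≤ 200 * r ^ 2 * log r := by
  have hr2 : (2 : ℝ) ≤ r := by exact_mod_cast hr
  have hl := log_ge hr2
  have hn0 : (0 : ℝ) < n := lt_of_lt_of_le (by positivity) hn
  have hL := log_natCast_nonneg n
  have h1 := n1 hr2 hn
  have h2 : (r : ℝ) ≤ r ^ 2 * log r := by nlinarith
  rcases le_total (log n) (16 * r * log r) with h | h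
  · refine ⟨_, tp_part (by omega) χ, (tp_le_of_prog (τ := 4 * r * log n) (by omega) one_pos
      (by positivity) (prog_star (by omega)) hnm ?_ ?_).trans ?_⟩
    · rw [show 1 * (4 * r * log n) / r = (4 : ℕ) * log n by push_cast; field_simp, exp_nat_mul,
        exp_log hn0]
      have : (m : ℝ) ≤ n ^ 4 := by exact_mod_cast hm
      nlinarith [pow_pos hn0 4]
    · push_cast
      nlinarith [mul_nonneg (by linarith : (0 : ℝ) ≤ r) hL]
    · nlinarith
  · obtain ⟨d, d1, -, d3⟩ := exists_d hr (Nat.cast_pos.1 hn0)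
    have h3 := hub_num hr (Nat.cast_pos.1 hn0) d1 h
    have h4 : 0 < r ^ r * (d + r) := by positivity
    refine ⟨_, upper_part (d := d) (by omega) (by nlinarith) hnm
      ((Nat.mul_le_mul_right _ hm).trans_lt d3) χ, ?_⟩
    have : ((2 * r - 1 : ℕ) : ℝ) ≤ 2 * r := by exact_mod_cast Nat.sub_le _ _
    nlinarith

theorem exists_cov (hr : 2 ≤ r) (hn : 6000 * r ^ 2 * log r ≤ n) (hm : 0 < m)
    (W : Fin m → Fin n → Fin r) (E : Finset (Fin m)) (hE : #E ≤ n ^ 4) :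
    ∃ u k : ℕ, Cov W E u k ∧ 32 * r * u ≤ n ∧ (k : ℝ) ≤ 65 * r ^ 2 * log r := by
  have hr2 : (2 : ℝ) ≤ r := by exact_mod_cast hr
  have hl := log_ge hr2
  have hn0 : (0 : ℝ) < n := lt_of_lt_of_le (by positivity) hn
  have h1 := n1 hr2 hn
  have h2 : (r : ℝ) ≤ r ^ 2 * log r := by nlinarith
  obtain ⟨d, d1, d2, d3⟩ := exists_d hr (Nat.cast_pos.1 hn0)
  rcases le_total (log n) (16 * r * log r) with h | h
  · have h3 : 32 * r * d ≤ n := by
      have : (32 * r * d : ℝ) ≤ n := by nlinarith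
      exact_mod_cast this
    refine ⟨d, d, cov_star (by omega) hm W E (by nlinarith) (lt_of_le_of_lt ?_ d2), h3, by nlinarith⟩
    exact mul_le_mul_of_nonneg_right (by exact_mod_cast hE)
      (pow_nonneg (by rw [sub_nonneg, div_le_one] <;> linarith) _)
  · have h3 := hub_num hr (Nat.cast_pos.1 hn0) d1 h
    refine ⟨n / (32 * r), 0, cov_hub (by omega) hm W E (Nat.div_le_self _ _) ?_
      ((Nat.mul_le_mul_right _ hE).trans_lt d3), Nat.mul_div_le _ _, by push_cast; positivity⟩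
    rw [Nat.le_div_iff_mul_le (by omega)]
    nlinarith [Nat.zero_le (r ^ r * d * r), Nat.zero_le (r ^ r * r * r)]

theorem caseB (hr : 2 ≤ r) (hn : 6000 * r ^ 2 * log r ≤ n) (χ : (K n m).edgeSet → Fin r)
    (E : Finset (Fin m)) (hE : #E ≤ n ^ 4) (hG : ∀ y, y ∉ E → Good (adj (vec χ)) (vec χ y))
    {y₀ : Fin m} (h₀ : y₀ ∉ E) (A : Finset (Fin n)) (g : Fin n → Fin r)
    (hg : ∀ y, Good (adj (vec χ)) y → 16 * r * #{x ∈ A | y x = g x} ≤ #A)
    (hZ : 32 * r * #Aᶜ ≤ n) (hm : m * (1 - 1 / (r : ℝ)) ^ n ≤ n ^ 6) :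
    ∃ k, Part (K n m) χ k ∧ (k : ℝ) ≤ 200 * r ^ 2 * log r := by
  have hr2 : (2 : ℝ) ≤ r := by exact_mod_cast hr
  have hl := log_ge hr2
  have hn0 : (0 : ℝ) < n := lt_of_lt_of_le (by positivity) hn
  have h1 := n1 hr2 hn
  have h2 : (r : ℝ) ≤ r ^ 2 * log r := by nlinarith
  obtain ⟨t, t1, t2⟩ := exists_t hr
  obtain ⟨u, k, ⟨U, J₀, c₀, hub, c1, c2, c3, c4⟩, u1, u2⟩ := exists_cov hr hn y₀.pos (vec χ) E hE
  have hv : #(U ∪ J₀) + #(U ∪ J₀)ᶜ = n := by rw [card_add_card_compl, Fintype.card_fin]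
  have hu : 32 * r * #(U ∪ J₀) ≤ n := (Nat.mul_le_mul_left _ c1).trans u1
  have hv' : 3 * n ≤ 4 * #(U ∪ J₀)ᶜ := by nlinarith
  obtain ⟨c₁, J, j1, j2, j3, j4⟩ := strategy (adj (vec χ)) hr (vec χ) (U ∪ J₀)ᶜ Eᶜ
    (mem_compl.2 h₀) (fun y hy => hG y (mem_compl.1 hy)) g (fun y hy => by
      have a1 := hg _ (hG y (mem_compl.1 hy))
      have a2 : #{x ∈ (U ∪ J₀)ᶜ | vec χ y x = g x} ≤ #{x ∈ A | vec χ y x = g x} + #Aᶜ := by
        refine le_trans (card_le_card fun x hx => ?_) (card_union_le _ _)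
        by_cases hA : x ∈ A
        · exact mem_union_left _ (mem_filter.2 ⟨hA, (mem_filter.1 hx).2⟩)
        · exact mem_union_right _ (mem_compl.2 hA)
      have a3 : #A ≤ n := (card_le_univ _).trans (by simp)
      nlinarith [Nat.mul_le_mul_left (8 * r) a2]) t1
  refine ⟨_, glueB (by omega) χ E U J₀ J c₀ c₁ hub c3 c4 j1 j3, ?_⟩
  have h3 : (#(avd (vec χ) Eᶜ (U ∪ J₀)ᶜ c₁) : ℝ) ≤ 1 := by
    refine j4.trans ?_
    have h0 : 0 < 1 - 1 / (r : ℝ) := by rw [sub_pos, div_lt_one] <;> linarith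
    have b1 : (#Eᶜ : ℝ) ≤ m := by exact_mod_cast (card_le_univ _).trans (by simp)
    have b2 := le_rho hr2 #(U ∪ J₀)
    rw [← hv, pow_add, hv] at hm
    generalize #(U ∪ J₀)ᶜ = v at *
    generalize #(U ∪ J₀) = w at *
    have b3 : m * (1 - 1 / (r : ℝ)) ^ v * exp (-(2 * w / r)) ≤ exp (6 * log n) := by
      rw [show 6 * log n = (6 : ℕ) * log n by norm_num, exp_nat_mul, exp_log hn0]
      refine le_trans ?_ hm
      rw [mul_assoc, mul_comm (_ ^ v)]
      gcongr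
    rw [exp_neg, mul_inv_le_iff₀ (exp_pos _), ← exp_add] at b3
    have b4 : exp (6 * log n + 2 * w / r) * exp (-(v / (8 * r ^ 2))) ≤ 1 := by
      rw [← exp_add, exp_le_one_iff, add_neg_le_iff_le_add, zero_add, le_div_iff₀ (by positivity)]
      have e : (6 * log n + 2 * w / r) * (8 * r ^ 2) = 48 * r ^ 2 * log n + 16 * r * w := by
        field_simp
        ring
      have f1 : (32 * r * w : ℝ) ≤ n := by exact_mod_cast hu
      have f2 : (3 * n : ℝ) ≤ 4 * v := by exact_mod_cast hv'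
      rw [e]
      linarith
    refine le_trans ?_ b4
    rw [← mul_assoc]
    gcongr
    exact le_trans (by gcongr) b3
  have h4 : (#J₀ : ℝ) ≤ k := by exact_mod_cast c2
  have h5 : (#J : ℝ) ≤ r * (t + 1) := by exact_mod_cast j2
  push_cast
  nlinarith

theorem upper (hr : 2 ≤ r) (hnm : n ≤ m) (χ : (K n m).edgeSet → Fin r) :
    ∃ k, Part (K n m) χ k ∧ (k : ℝ) ≤ Psi r n m + 6100 * r ^ 2 * log r := by
  have hr2 : (2 : ℝ) ≤ r := by exact_mod_cast hr
  have hl := log_ge hr2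
  have h2 : (r : ℝ) ≤ r ^ 2 * log r := by nlinarith
  have hP : (0 : ℝ) ≤ Psi r n m := Nat.cast_nonneg _
  have h0 : 0 < 1 - 1 / (r : ℝ) := by rw [sub_pos, div_lt_one] <;> linarith
  obtain ⟨c, hc⟩ := exists_opt (by omega) (vec χ)
  have hc' : (av (vec χ) c : ℝ) ≤ Psi r n m := by exact_mod_cast hc
  rcases le_total (n : ℝ) (6000 * r ^ 2 * log r) with hn | hn
  · exact ⟨_, star_part (by omega) χ c, by push_cast; nlinarith⟩
  rcases le_or_gt m (n ^ 4) with hm | hm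
  · obtain ⟨k, k1, k2⟩ := small_m hr hn hnm hm χ
    exact ⟨k, k1, by nlinarith⟩
  have hn0 : (0 : ℝ) < n := lt_of_lt_of_le (by positivity) hn
  have h1 := n1 hr2 hn
  obtain ⟨E, e1, e2⟩ := exists_exc (vec χ)
  have hE : #E ≤ n ^ 4 := by
    have : 2 * r ≤ n := by
      have : (2 * r : ℝ) ≤ n := by nlinarith
      exact_mod_cast this
    calc #E ≤ r * n * n * (n + n) := e1.trans (Nat.mul_le_mul_left _ (by omega))
      _ = 2 * r * n ^ 3 := by ring
      _ ≤ n * n ^ 3 := Nat.mul_le_mul_right _ this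
      _ = n ^ 4 := by ring
  obtain ⟨y₀, -, h₀⟩ := exists_mem_notMem_of_card_lt_card (s := E) (t := univ)
    (by simpa using hE.trans_lt hm)
  obtain ⟨A, g, hg, hZ⟩ := pack (adj (vec χ)) (by omega) (by omega : 0 < 16 * r)
  have ha : ((r * (16 * r) : ℕ) : ℝ) ≤ 24 * r ^ 2 * log r := by push_cast; nlinarith
  rcases le_total (#A : ℝ) (6000 * r ^ 2 * log r) with hw | hw
  · refine ⟨_, glueA (by omega) y₀.pos χ A A c c Subset.rfl (fun x h h' => absurd h h') hZ, ?_⟩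
    have : #(avd (vec χ) (avd (vec χ) univ A c) Aᶜ c) ≤ av (vec χ) c := card_le_card fun y hy =>
      mem_filter.2 ⟨mem_univ _, fun x => by
        by_cases hx : x ∈ A
        exacts [(mem_avd.1 (mem_avd.1 hy).1).2 x hx, (mem_avd.1 hy).2 x (mem_compl.2 hx)]⟩
    have := (Nat.cast_le (α := ℝ)).2 this
    rw [Nat.cast_add, Nat.cast_add]
    nlinarith
  obtain ⟨t, t1, t2⟩ := exists_t hr
  obtain ⟨T, T0, T1, T2, T3⟩ := exists_T hr hw
  obtain ⟨c₁, J, j1, j2, j3, j4⟩ := strategy (adj (vec χ)) hr (vec χ) A Eᶜ (mem_compl.2 h₀)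
    (fun y hy => e2 y (mem_compl.1 hy)) g (fun y hy => by
      have := hg _ (e2 y (mem_compl.1 hy))
      nlinarith) t1
  have h5 : (#J : ℝ) ≤ r * (t + 1) := by exact_mod_cast j2
  have hγ : 2 * T * #(avd (vec χ) Eᶜ A c₁) ≤ m := by
    have b1 : (#Eᶜ : ℝ) ≤ m := by exact_mod_cast (card_le_univ _).trans (by simp)
    have b2 := mul_le_mul_of_nonneg_left j4 (by positivity : (0 : ℝ) ≤ 2 * T)
    have b3 := mul_le_mul_of_nonneg_left T3 (Nat.cast_nonneg #Eᶜ : (0 : ℝ) ≤ _)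
    have : (2 * T * #(avd (vec χ) Eᶜ A c₁) : ℝ) ≤ m := by nlinarith
    exact_mod_cast this
  have hS : #(avd (vec χ) univ A c₁) ≤ #(avd (vec χ) Eᶜ A c₁) + n ^ 4 := by
    refine le_trans (card_le_card (t := avd (vec χ) Eᶜ A c₁ ∪ E) fun y hy => ?_)
      ((card_union_le _ _).trans (Nat.add_le_add_left hE _))
    by_cases h : y ∈ E
    · exact mem_union_right _ h
    · exact mem_union_left _ (mem_avd.2 ⟨mem_compl.2 h, (mem_avd.1 hy).2⟩)
  have fin : ∀ c₂, (#(avd (vec χ) (avd (vec χ) univ A c₁) Aᶜ c₂) : ℝ) ≤ Psi r n m + 1 →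
      ∃ k, Part (K n m) χ k ∧ (k : ℝ) ≤ Psi r n m + 6100 * r ^ 2 * log r := fun c₂ h =>
    ⟨_, glueA (by omega) y₀.pos χ A J c₁ c₂ j1 j3 hZ, by
      rw [Nat.cast_add, Nat.cast_add]
      nlinarith⟩
  rcases le_or_gt (2 * n ^ 4 * T) m with hT | hT
  · obtain ⟨cov, hcov⟩ := exists_cover hr A T1
    obtain ⟨c₂, h⟩ := exists_le_Psi_prod (m := m) (by omega) (vec χ) (avd (vec χ) univ A c₁) Aᶜ cov
      (fun c => (hcov c).imp fun t ht x hx => ht x (by simpa using hx))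
      (by nlinarith [Nat.mul_le_mul_right T hS])
    exact fin c₂ ((Nat.cast_le.2 h).trans (by linarith))
  have hS' : (#(avd (vec χ) univ A c₁) : ℝ) ≤ 2 * n ^ 4 := by
    have : #(avd (vec χ) Eᶜ A c₁) ≤ n ^ 4 := by
      by_contra h
      nlinarith [Nat.mul_le_mul_left T (not_le.1 h).le]
    exact_mod_cast (by omega : #(avd (vec χ) univ A c₁) ≤ 2 * n ^ 4)
  rcases le_total (2 * n ^ 4 * (1 - 1 / (r : ℝ)) ^ #Aᶜ) 1 with hz | hz
  · obtain ⟨c₂, h⟩ := greedy (by omega) (vec χ) (avd (vec χ) univ A c₁) Aᶜ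
    exact fin c₂ (h.trans ((mul_le_mul_of_nonneg_right hS' (by positivity)).trans (by linarith)))
  have hn6 : 6 * log r ≤ n := by
    nlinarith [mul_nonneg (by nlinarith : (0 : ℝ) ≤ r ^ 2 - 1) (by linarith : 0 ≤ log r)]
  obtain ⟨k, k1, k2⟩ := caseB hr hn χ E hE e2 h₀ A g hg (by
    have b1 := hz.trans (mul_le_mul_of_nonneg_left (rho_le (by linarith) _) (by positivity))
    rw [exp_neg, le_mul_inv_iff₀ (exp_pos _), one_mul] at b1
    have b2 : (2 * n ^ 4 : ℝ) ≤ exp ((5 : ℕ) * log n) := by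
      rw [exp_nat_mul, exp_log hn0]
      nlinarith [pow_pos hn0 4]
    have b3 := exp_le_exp.1 (b1.trans b2)
    rw [div_le_iff₀ (by positivity)] at b3
    have : (32 * r * #Aᶜ : ℝ) ≤ n := by
      push_cast at b3
      nlinarith [mul_nonneg (sq_nonneg (r : ℝ)) (log_natCast_nonneg n)]
    exact_mod_cast this) (by
    have b0 : #A ≤ n := (card_le_univ _).trans (by simp)
    have b1 : (1 - 1 / (r : ℝ)) ^ n ≤ (1 - 1 / (r : ℝ)) ^ #A :=
      pow_le_pow_of_le_one h0.le (sub_le_self _ (by positivity)) b0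
    have b2 : (m : ℝ) ≤ 2 * n ^ 4 * T := by exact_mod_cast hT.le
    have b3 : (#A : ℝ) ≤ n := by exact_mod_cast b0
    calc _ ≤ 2 * n ^ 4 * T * (1 - 1 / (r : ℝ)) ^ #A := by gcongr
      _ ≤ 2 * n ^ 4 * (3 * (n * log r)) := by
        rw [mul_assoc (2 * _)]
        exact mul_le_mul_of_nonneg_left (T2.trans (by gcongr)) (by positivity)
      _ = n ^ 5 * (6 * log r) := by ring
      _ ≤ n ^ 5 * n := by gcongr
      _ = n ^ 6 := by ring)
  exact ⟨k, k1, by nlinarith⟩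

end Pool.Agent.MP_4e8562_co.H66b
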