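import Mathlib
import Pool.Agent.MP_4e8562_co.H66b.Main
import Pool.Agent.MP_4e8562_co.H66b.Defs

/-! Facts on `Phi` and the exact range. -/

namespace Pool.Agent.MP_4e8562_co.H66b

open Finset Real Pool.Agent.MP_4e8562_co.H97 Pool.Agent.MP_4e8562_co.H66

variable {n m r : ℕ}

theorem Phi_bdd (hr : 0 < r) : BddAbove {k | ∃ W : Fin m → Fin n → Fin r, ∀ c : Fin n → Fin r,
    k ≤ #(univ.image c) + #{b | ∀ a, W b a ≠ c a}} := by
  refine ⟨r + m, ?_⟩
  rintro k ⟨W, hW⟩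
  exact (hW fun _ => ⟨0, hr⟩).trans
    (add_le_add ((card_le_univ _).trans (by simp)) ((card_le_univ _).trans (by simp)))

theorem Phi_spec (hr : 0 < r) (n m : ℕ) :
    ∃ W : Fin m → Fin n → Fin r, ∀ c, Phi r n m ≤ #(univ.image c) + av W c :=
  Nat.sSup_mem (s := {k | ∃ W : Fin m → Fin n → Fin r, ∀ c : Fin n → Fin r,
    k ≤ #(univ.image c) + #{b | ∀ a, W b a ≠ c a}})
    ⟨0, fun _ _ => ⟨0, hr⟩, fun _ => Nat.zero_le _⟩ (Phi_bdd hr)

theorem le_Phi (hr : 0 < r) {k : ℕ} (W : Fin m → Fin n → Fin r)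
    (h : ∀ c, k ≤ #(univ.image c) + av W c) : k ≤ Phi r n m := le_csSup (Phi_bdd hr) ⟨W, h⟩

theorem exists_le_Phi (hr : 0 < r) (W : Fin m → Fin n → Fin r) :
    ∃ c, #(univ.image c) + av W c ≤ Phi r n m := by
  by_contra h
  push Not at h
  have := le_Phi hr W fun c => Nat.succ_le_of_lt (h c)
  omega

theorem Psi_le_Phi (hr : 0 < r) : Psi r n m ≤ Phi r n m := by
  obtain ⟨W, hW⟩ := Psi_spec hr n m
  exact le_Phi hr W fun c => (hW c).trans (Nat.le_add_left _ _)

theorem Phi_le_tp (hr : 0 < r) : Phi r n m ≤ tp r (K n m) := by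
  obtain ⟨W, hW⟩ := Phi_spec hr n m
  obtain ⟨χ, hχ⟩ := exists_colouring W
  obtain ⟨c, hc⟩ := lower_part hr χ (tp_part hr χ)
  rw [hχ] at hc
  exact (hW c).trans hc

theorem fix_greedy (hr : 0 < r) (W : Fin m → Fin n → Fin r) (F : Finset (Fin n)) (s : Fin r) :
    ∃ c, (av W c : ℝ) ≤ #{b | ∀ x ∈ F, W b x ≠ s} * (1 - 1 / (r : ℝ)) ^ #Fᶜ := by
  obtain ⟨c, hc⟩ := greedy hr W {b | ∀ x ∈ F, W b x ≠ s} Fᶜ
  refine ⟨fun x => if x ∈ F then s else c x, le_trans (Nat.cast_le.2 (card_le_card fun y hy => ?_)) hc⟩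
  have hy' := (mem_filter.1 hy).2
  exact mem_avd.2 ⟨mem_filter.2 ⟨mem_univ _, fun x hx => by simpa [hx] using hy' x⟩,
    fun x hx => by simpa [mem_compl.1 hx] using hy' x⟩

theorem Phi_le (hr : 0 < r) : (Phi r n m : ℝ) ≤ r + m * (1 - 1 / (r : ℝ)) ^ n := by
  obtain ⟨W, hW⟩ := Phi_spec hr n m
  obtain ⟨c, hc⟩ := fix_greedy hr W ∅ ⟨0, hr⟩
  have h1 : Phi r n m ≤ r + av W c :=
    (hW c).trans (Nat.add_le_add_right ((card_le_univ _).trans (by simp)) _)
  have h2 := (Nat.cast_le (α := ℝ)).2 h1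
  simp only [notMem_empty, false_imp_iff, implies_true, filter_true, card_univ, Fintype.card_fin,
    compl_empty] at hc
  push_cast at h2
  linarith

theorem le_Psi' (hr : 2 ≤ r) : m * (1 - 1 / (r : ℝ)) ^ n -
    √(2 * (m * (1 - 1 / (r : ℝ)) ^ n) * (n * log r)) ≤ Psi r n m := by
  obtain ⟨W, hW⟩ := chernoff (ι := Fin n) hr m
  obtain ⟨c, hc⟩ := exists_opt (by omega) W
  have h := hW c
  rw [Fintype.card_fin] at h
  refine h.trans (Nat.cast_le.2 (le_trans (le_of_eq ?_) hc))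
  rw [av]
  congr

theorem bad_pair (hr : 2 ≤ r) (W : Fin m → Fin n → Fin r) {x x' : Fin n} (hx : x ≠ x') {j : Fin r}
    (h : ¬ adj W j x x') :
    ∃ c, (av W c : ℝ) ≤ m * (1 - 1 / (r : ℝ)) ^ n * (1 - 1 / (2 * r ^ 3)) + (n + r) := by
  have hr2 : (2 : ℝ) ≤ r := by exact_mod_cast hr
  have h0 : 0 < 1 - 1 / (r : ℝ) := by rw [sub_pos, div_lt_one] <;> linarith
  have h1 : 1 - 1 / (r : ℝ) ≤ 1 := sub_le_self _ (by positivity)
  set ρ : ℝ := 1 - 1 / (r : ℝ) with hρ
  set ε : ℝ := 1 / (2 * r ^ 3) with hε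
  have hε0 : 0 < ε := by positivity
  have hm0 : (0 : ℝ) ≤ m := Nat.cast_nonneg _
  by_cases hc : ∃ z s, m * (1 / r + ε) ≤ (#{b | W b z = s} : ℝ)
  · obtain ⟨z, s, hz⟩ := hc
    obtain ⟨c, hc⟩ := fix_greedy (by omega) W {z} s
    refine ⟨c, hc.trans (le_trans ?_ (le_add_of_nonneg_right (by positivity)))⟩
    have e1 : #({z} : Finset (Fin n))ᶜ + 1 = n := by
      rw [← card_singleton z, card_compl_add_card, Fintype.card_fin]
    have e2 := card_filter_add_card_filter_not (s := (univ : Finset (Fin m))) fun b => W b z = s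
    rw [card_univ, Fintype.card_fin] at e2
    have e3 := congrArg (Nat.cast (R := ℝ)) e2
    simp only [mem_singleton, forall_eq, ne_eq]
    generalize #({z} : Finset (Fin n))ᶜ = k at *
    rw [← e1, pow_succ]
    push_cast at e3
    have e4 : (#{b | ¬ W b z = s} : ℝ) ≤ m * (ρ * (1 - ε)) := by
      nlinarith [mul_nonneg hm0 (mul_nonneg hε0.le (sub_nonneg.2 h1))]
    nlinarith [mul_le_mul_of_nonneg_right e4 (pow_pos h0 k).le]
  · push Not at hc
    have key : ∀ z, m * (1 / r - (r - 1) * ε) ≤ (#{b | W b z = j} : ℝ) := fun z => by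
      have a1 := card_eq_sum_card_fiberwise (s := (univ : Finset (Fin m))) (f := fun b => W b z)
        (t := univ) fun _ _ => mem_coe.2 (mem_univ _)
      rw [card_univ, Fintype.card_fin, ← add_sum_erase _ _ (mem_univ j)] at a1
      have a2 := congrArg (Nat.cast (R := ℝ)) a1
      push_cast at a2
      have a3 := sum_le_card_nsmul (univ.erase j) _ _ fun s _ => (hc z s).le
      rw [card_erase_of_mem (mem_univ _), card_univ, Fintype.card_fin, nsmul_eq_mul,
        Nat.cast_sub (by omega), Nat.cast_one] at a3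
      have a4 : (r - 1 : ℝ) * (m * (1 / r + ε)) = m - m * (1 / r - (r - 1) * ε) := by
        field_simp
        ring
      linarith
    obtain ⟨c, hc⟩ := fix_greedy (by omega) W {x, x'} j
    refine ⟨c, hc.trans ?_⟩
    have e1 : #({x, x'} : Finset (Fin n))ᶜ + 2 = n := by
      rw [← card_pair hx, card_compl_add_card, Fintype.card_fin]
    have e2 : #{b | ∀ z ∈ ({x, x'} : Finset (Fin n)), W b z ≠ j} + #{b | W b x = j} +
        #{b | W b x' = j} = m + #{b | W b x = j ∧ W b x' = j} := by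
      rw [add_assoc, ← card_union_add_card_inter, ← add_assoc, ← filter_and, ← filter_or]
      congr 1
      rw [add_comm]
      convert card_filter_add_card_filter_not (s := (univ : Finset (Fin m)))
        fun b => W b x = j ∨ W b x' = j using 3
      · ext b
        simp
      · simp
    have e3 := congrArg (Nat.cast (R := ℝ)) e2
    have e4 : (#{b | W b x = j ∧ W b x' = j} : ℝ) ≤ n + r := by exact_mod_cast (not_le.1 h).le
    push_cast at e3
    have e5 : 1 - 2 * (1 / r - (r - 1) * ε) = ρ ^ 2 - 2 * ε := by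
      rw [hρ, hε]
      field_simp
      ring
    have e6 : (#{b | ∀ z ∈ ({x, x'} : Finset (Fin n)), W b z ≠ j} : ℝ) ≤
        m * (ρ ^ 2 * (1 - ε)) + (n + r) := by
      have := key x
      have := key x'
      have : ρ ^ 2 ≤ 1 := pow_le_one₀ h0.le h1
      have : m * (ρ ^ 2 - 2 * ε) ≤ m * (ρ ^ 2 * (1 - ε)) :=
        mul_le_mul_of_nonneg_left (by nlinarith) hm0
      rw [← e5] at this
      linarith
    generalize #({x, x'} : Finset (Fin n))ᶜ = k at *
    have e7 : ρ ^ n = ρ ^ k * ρ ^ 2 := by rw [← e1, pow_add]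
    have e8 : ρ ^ k ≤ 1 := pow_le_one₀ h0.le h1
    rw [e7]
    nlinarith [mul_le_mul_of_nonneg_right e6 (pow_pos h0 k).le,
      mul_le_mul_of_nonneg_left e8 (by positivity : (0 : ℝ) ≤ n + r)]

theorem exact (hr : 2 ≤ r) (hn : 1 ≤ n) (hnm : n ≤ m)
    (hμ : 32 * r ^ 6 * n * log r ≤ m * (1 - 1 / (r : ℝ)) ^ n) (χ : (K n m).edgeSet → Fin r) :
    Part (K n m) χ (Phi r n m) := by
  by_cases h : ∀ j x x', x ≠ x' → adj (vec χ) j x x'
  · obtain ⟨c, hc⟩ := exists_le_Phi (by omega) (vec χ)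
    refine (part_of_plan (by omega) χ c {x | ∀ z, c z = c x → x ≤ z} ∅ (fun _ => ⟨0, by omega⟩)
      (by simp) fun x _ hx => ?_).mono (le_trans (Nat.add_le_add_right ?_ _) hc)
    · obtain ⟨x', a1, a2⟩ := exists_min_image {z | c z = c x} id ⟨x, by simp⟩
      have a3 := (mem_filter.1 a1).2
      have a4 : x' ∈ ({x | ∀ z, c z = c x → x ≤ z} : Finset (Fin n)) :=
        mem_filter.2 ⟨mem_univ _, fun z hz => a2 z (mem_filter.2 ⟨mem_univ _, hz.trans a3⟩)⟩
      exact ⟨x', a4, a3, h _ _ _ fun e => hx (e ▸ a4)⟩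
    · rw [image_empty, card_empty, add_zero]
      exact card_le_card_of_injOn c (fun x _ => mem_image_of_mem _ (mem_univ _))
        fun x hx x' hx' e => le_antisymm ((mem_filter.1 hx).2 _ e.symm) ((mem_filter.1 hx').2 _ e)
  · push Not at h
    obtain ⟨j, x, x', hx, h⟩ := h
    obtain ⟨c, hc⟩ := bad_pair hr (vec χ) hx h
    refine (star_part (by omega) χ c).mono (le_trans ?_ (Psi_le_Phi (by omega)))
    have hr2 : (2 : ℝ) ≤ r := by exact_mod_cast hr
    have hl := log_ge hr2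
    have hn1 : (1 : ℝ) ≤ n := by exact_mod_cast hn
    have h1 := le_Psi' (n := n) (m := m) hr
    set μ : ℝ := m * (1 - 1 / (r : ℝ)) ^ n
    have h2 : 8 * r ^ 3 * (n * log r) ≤ μ / (4 * r ^ 3) := by
      rw [le_div_iff₀ (by positivity)]
      linarith
    have h3 : √(2 * μ * (n * log r)) ≤ μ / (4 * r ^ 3) := by
      rw [sqrt_le_left (le_trans (by positivity) h2)]
      have e : μ = μ / (4 * r ^ 3) * (4 * r ^ 3) := by field_simp
      have h4 : 0 ≤ μ / (4 * r ^ 3) := le_trans (by positivity) h2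
      generalize μ / (4 * r ^ 3) = q at *
      rw [e]
      nlinarith [mul_le_mul_of_nonneg_left h2 h4]
    have h5 : (2 * n + r : ℝ) ≤ 8 * r ^ 3 * (n * log r) := by
      have a1 : (r : ℝ) ≤ r ^ 3 := le_self_pow₀ (by linarith) (by norm_num)
      have a2 : 0.69 * n ≤ n * log r := by nlinarith
      nlinarith [mul_le_mul a1 a2 (by positivity) (by positivity)]
    have h6 : μ * (1 - 1 / (2 * r ^ 3)) = μ - 2 * (μ / (4 * r ^ 3)) := by
      field_simp
      ring
    have : (n + av (vec χ) c : ℝ) ≤ Psi r n m := by linarith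
    exact_mod_cast this

theorem all_range (hr : 2 ≤ r) (hn : 1 ≤ n) (hnm : n ≤ m) :
    Phi r n m ≤ tp r (K n m) ∧ (tp r (K n m) : ℝ) ≤ Phi r n m + 6100 * r ^ 2 * log r ∧
    (32 * r ^ 6 * n * log r ≤ m * (1 - 1 / (r : ℝ)) ^ n → tp r (K n m) = Phi r n m) ∧
    m * (1 - 1 / (r : ℝ)) ^ n - √(2 * (m * (1 - 1 / (r : ℝ)) ^ n) * (n * log r)) ≤ Phi r n m ∧
    (Phi r n m : ℝ) ≤ m * (1 - 1 / (r : ℝ)) ^ n + r := by
  have hP : (Psi r n m : ℝ) ≤ Phi r n m := by exact_mod_cast Psi_le_Phi (by omega)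
  refine ⟨Phi_le_tp (by omega), ?_,
    fun h => le_antisymm (Nat.sInf_le (exact hr hn hnm h)) (Phi_le_tp (by omega)), ?_⟩
  · have key : ∀ χ : (K n m).edgeSet → Fin r,
        Part (K n m) χ ⌊Psi r n m + 6100 * r ^ 2 * log r⌋₊ := fun χ =>
      let ⟨_, h1, h2⟩ := upper hr hnm χ
      h1.mono (Nat.le_floor h2)
    have := log_natCast_nonneg r
    have h1 : tp r (K n m) ≤ ⌊Psi r n m + 6100 * r ^ 2 * log r⌋₊ := Nat.sInf_le key
    exact (Nat.cast_le.2 h1).trans ((Nat.floor_le (by positivity)).trans (by linarith))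
  · exact ⟨(le_Psi' hr).trans hP, (Phi_le (by omega)).trans (add_comm _ _).le⟩

end Pool.Agent.MP_4e8562_co.H66b
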